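import Pool.Agent.N659.HB.Stm4

/-!
Project KG (helper659), part ASYG (helper887): choice of the numbers, Gaussian disorder.
Adaptation of `N170/KS/AsyK.lean` (helper170).
-/

set_option autoImplicit false

namespace Pool.Agent.N887.KG

open Filter Pool.Agent.N659.HB
open scoped Topology

/-- the constant in the lower bound of `cG` -/
noncomputable def c3 (γ c D₀ : ℝ) : ℝ :=
  (γ * c / 720) ^ 3 * γ ^ 2 / (16 * (D₀ + 4) ^ 4)

/-- the constant in the upper bound of `EX` -/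
noncomputable def c6 (γ c D₀ : ℝ) : ℝ := 1440 * (D₀ + 4) ^ 2 / (γ * c) + 2

/-- the constant in the upper bound of `epsL` -/
noncomputable def cM (γ c D₀ : ℝ) : ℝ := 512 * c6 γ c D₀ ^ 6 / c3 γ c D₀ ^ 3

lemma le_of_sq {a b : ℝ} (hb : 0 ≤ b) (h : a ^ 2 ≤ b ^ 2) : a ≤ b := by
  by_contra hc
  rw [not_le] at hc
  have : b ^ 2 < a ^ 2 := pow_lt_pow_left₀ hc hb two_ne_zero
  linarith

theorem core {γ C c D₀ sg L J l κ s₂ : ℝ} {n : ℕ} (hγ : 0 < γ) (hC : 0 < C)
    (hc : 0 < c) (hD : 0 ≤ D₀) (hL : 360 ≤ L) (hJ1 : L ≤ J)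
    (hJ2 : J ≤ 2 * L) (hsg0 : 0 < sg) (hsg1 : sg ≤ 1) (hexp : Real.exp (-L) = sg)
    (hl : l = sg ^ 2 * L ^ 10 / 2) (hn1 : 10 * L ≤ n) (hn2 : (n : ℝ) ≤ 11 * L)
    (hκ : κ = Real.sqrt (2 * L * sg * C * J * (4 * (γ * sg * L) / (γ * l))))
    (hs2a : 1 / (2 * L ^ 2) ≤ s₂) (hs2b : s₂ ≤ 1 / L ^ 2)
    (k1 : 131072 * C ≤ L) (k2 : 991232 * C ≤ L)
    (k3 : 32 * C * (288000 * C / c) ^ 2 ≤ L)
    (k4 : 34560 * C ^ 2 / c ≤ L) (k5 : c / (2 * C) ≤ L)
    (k6 : 61952 * C * Real.exp 3 ≤ L)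
    (d1 : sg * L ^ 11 ≤ 2 / C) (d2 : sg * L ^ 11 ≤ 1 / (32 * γ * C))
    (d3 : sg * L ^ 11 ≤ 64 * C ^ 3) (d4 : sg * L ^ 11 ≤ c3 γ c D₀ / (16 * γ))
    (d5 : sg * L ^ 11 ≤ γ * c / (72000 * cM γ c D₀))
    (d6 : sg * L ^ 11 ≤ γ * C / (4 * cM γ c D₀))
    (d7 : sg * L ^ 11 ≤ 1) (d8 : sg * L ^ 11 ≤ 1 / γ) :
    l ≤ 1 / 2 ∧ NH n (γ * sg * L) (γ * l) (2 * L * sg * C * J) κ s₂ (L * sg * c)
      ((L * sg) ^ 2 * (C / l)) D₀ (Real.exp (-(L ^ 2) / 8)) := by
  have hL0 : 0 < L := by linarith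
  have hL1 : 1 ≤ L := by linarith
  have hJ0 : 0 < J := by linarith
  have hl0 : 0 < l := by rw [hl]; positivity
  have hn0 : 0 < (n : ℝ) := by linarith
  have hn : 1 ≤ n := by
    have : (1 : ℝ) ≤ n := by linarith
    exact_mod_cast this
  have hs20 : 0 < s₂ := lt_of_lt_of_le (by positivity) hs2a
  have hs21 : s₂ ≤ 1 := by
    refine hs2b.trans ?_
    rw [div_le_one (by positivity)]
    exact one_le_pow₀ hL1
  have hc3 : 0 < c3 γ c D₀ := by unfold c3; positivity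
  have hc6 : 0 < c6 γ c D₀ := by unfold c6; positivity
  have hcM : 0 < cM γ c D₀ := by unfold cM; positivity
  -- powers
  have pw : ∀ k : ℕ, k ≤ 11 → L ^ k ≤ L ^ 11 := fun k hk => pow_le_pow_right₀ hL1 hk
  have pl : ∀ k : ℕ, 1 ≤ k → L ≤ L ^ k := fun k hk => by
    calc L = L ^ 1 := (pow_one L).symm
      _ ≤ L ^ k := pow_le_pow_right₀ hL1 hk
  have ps : ∀ k : ℕ, k ≤ 11 → sg * L ^ k ≤ sg * L ^ 11 := fun k hk =>
    mul_le_mul_of_nonneg_left (pw k hk) hsg0.le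
  have p0 : sg ≤ sg * L ^ 11 := by
    have := ps 0 (by norm_num)
    rwa [pow_zero, mul_one] at this
  have p1 : sg * L ≤ sg * L ^ 11 := by
    have := ps 1 (by norm_num)
    rwa [pow_one] at this
  have ps2 : ∀ k : ℕ, k ≤ 11 → sg ^ 2 * L ^ k ≤ sg * L ^ 11 := fun k hk => by
    calc sg ^ 2 * L ^ k = sg * (sg * L ^ k) := by ring
      _ ≤ 1 * (sg * L ^ k) := by gcongr
      _ ≤ _ := by rw [one_mul]; exact ps k hk
  -- the square of kappa
  have hval : 2 * L * sg * C * J * (4 * (γ * sg * L) / (γ * l)) = 16 * C * J / L ^ 8 := by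
    rw [hl]
    field_simp
    ring
  have hκ0 : 0 < κ := by
    rw [hκ, hval]
    exact Real.sqrt_pos.2 (by positivity)
  have hκ2 : κ ^ 2 = 16 * C * J / L ^ 8 := by
    rw [hκ, hval, Real.sq_sqrt (by positivity)]
  have hκu : κ ^ 2 ≤ 32 * C / L ^ 7 := by
    rw [hκ2, div_le_div_iff₀ (by positivity) (by positivity)]
    calc 16 * C * J * L ^ 7 ≤ 16 * C * (2 * L) * L ^ 7 := by gcongr
      _ = 32 * C * L ^ 8 := by ring
  have hκl : 16 * C / L ^ 7 ≤ κ ^ 2 := by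
    rw [hκ2, div_le_div_iff₀ (by positivity) (by positivity)]
    calc 16 * C * L ^ 8 = 16 * C * L * L ^ 7 := by ring
      _ ≤ 16 * C * J * L ^ 7 := by gcongr
  have hκL : (L * κ) ^ 2 ≤ 32 * C / L ^ 5 := by
    rw [mul_pow]
    calc L ^ 2 * κ ^ 2 ≤ L ^ 2 * (32 * C / L ^ 7) := by gcongr
      _ = 32 * C / L ^ 5 := by field_simp
  have hκL3 : (L ^ 3 * κ) ^ 2 ≤ 32 * C / L := by
    rw [mul_pow]
    calc (L ^ 3) ^ 2 * κ ^ 2 ≤ (L ^ 3) ^ 2 * (32 * C / L ^ 7) := by gcongr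
      _ = 32 * C / L := by field_simp
  have a64 : 64 * κ ≤ 1 := by
    have h1 : (64 * κ) ^ 2 ≤ 1 ^ 2 := by
      rw [mul_pow, one_pow]
      have h2 : 32 * C / L ^ 7 ≤ 1 / 4096 := by
        rw [div_le_div_iff₀ (by positivity) (by norm_num)]
        have := pl 7 (by norm_num)
        linarith
      linarith
    exact le_of_sq zero_le_one h1
  have a176 : 176 * (L * κ) ≤ 1 := by
    have h1 : (176 * (L * κ)) ^ 2 ≤ 1 ^ 2 := by
      rw [mul_pow, one_pow]
      have h2 : 32 * C / L ^ 5 ≤ 1 / 30976 := by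
        rw [div_le_div_iff₀ (by positivity) (by norm_num)]
        have := pl 5 (by norm_num)
        linarith
      linarith
    exact le_of_sq zero_le_one h1
  have nκ : n * κ ≤ 11 * (L * κ) := by
    calc n * κ ≤ 11 * L * κ := by gcongr
      _ = _ := by ring
  have b_le : 2 * L * sg * C * J ≤ 4 * C * sg * L ^ 2 := by
    calc 2 * L * sg * C * J ≤ 2 * L * sg * C * (2 * L) := by gcongr
      _ = _ := by ring
  have b_ge : 2 * C * sg * L ^ 2 ≤ 2 * L * sg * C * J := by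
    calc 2 * C * sg * L ^ 2 = 2 * L * sg * C * L := by ring
      _ ≤ _ := by gcongr
  have e2 : 48 * (γ * sg * L) * (2 * L * sg * C * J) ≤ γ * l := by
    rw [hl]
    have h1 : 384 * C ≤ L ^ 7 := by
      have := pl 7 (by norm_num)
      linarith
    calc 48 * (γ * sg * L) * (2 * L * sg * C * J)
        ≤ 48 * (γ * sg * L) * (4 * C * sg * L ^ 2) := by gcongr
      _ = (384 * C) * (γ * sg ^ 2 * L ^ 3 / 2) := by ring
      _ ≤ L ^ 7 * (γ * sg ^ 2 * L ^ 3 / 2) := by gcongr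
      _ = γ * (sg ^ 2 * L ^ 10 / 2) := by ring
  have hr1 : γ * l ≤ 1 := by
    have h1 : sg ^ 2 * L ^ 10 ≤ 1 / γ := (ps2 10 (by norm_num)).trans d8
    rw [le_div_iff₀ hγ] at h1
    rw [hl]
    nlinarith
  have e2'' : 8 * (γ * sg * L * (2 * L * sg * C * J)) ≤ 1 := by
    have h1 : sg ^ 2 * L ^ 3 ≤ 1 / (32 * γ * C) := (ps2 3 (by norm_num)).trans d2
    rw [le_div_iff₀ (by positivity)] at h1
    calc 8 * (γ * sg * L * (2 * L * sg * C * J))
        ≤ 8 * (γ * sg * L * (4 * C * sg * L ^ 2)) := by gcongr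
      _ = sg ^ 2 * L ^ 3 * (32 * γ * C) := by ring
      _ ≤ 1 := h1
  -- eta
  have heta : γ * c / 720 * sg ^ 2 ≤ etaG (γ * sg * L) s₂ (L * sg * c) := by
    unfold etaG
    calc γ * c / 720 * sg ^ 2 = (γ * sg * L) * (1 / (2 * L ^ 2)) * (L * sg * c) / 360 := by
          field_simp
          ring
      _ ≤ _ := by gcongr
  have heta0 : 0 < etaG (γ * sg * L) s₂ (L * sg * c) := lt_of_lt_of_le (by positivity) heta
  set Dv := D₀ + 1 + 3 * (γ * sg * L) * (2 * L * sg * C * J) + 2 * (γ * l) with hDv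
  have hDv0 : 0 < Dv := by rw [hDv]; positivity
  have hDv4 : Dv ≤ D₀ + 4 := by
    rw [hDv]
    nlinarith
  have hcG : c3 γ c D₀ * sg ^ 10 ≤ cG (γ * sg * L) (γ * l) (2 * L * sg * C * J) s₂
      (L * sg * c) D₀ := by
    unfold cG c3
    rw [← hDv]
    have h1 : (γ * c / 720) ^ 3 * γ ^ 2 / (16 * (D₀ + 4) ^ 4) * sg ^ 10 =
        (γ * c / 720 * sg ^ 2) ^ 3 * (γ * (sg ^ 2 / 2)) ^ 2 / (4 * (D₀ + 4) ^ 4) := by
      field_simp
      ring
    rw [h1]
    have h2 : sg ^ 2 / 2 ≤ l := by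
      rw [hl]
      have : (1 : ℝ) ≤ L ^ 10 := one_le_pow₀ hL1
      have : sg ^ 2 * 1 ≤ sg ^ 2 * L ^ 10 := by gcongr
      linarith
    gcongr
  have hcG0 : 0 < cG (γ * sg * L) (γ * l) (2 * L * sg * C * J) s₂ (L * sg * c) D₀ :=
    lt_of_lt_of_le (by positivity) hcG
  -- epsL
  have hEX : EX (γ * sg * L) (γ * l) (2 * L * sg * C * J) s₂ (L * sg * c) D₀ ≤
      c6 γ c D₀ / sg ^ 2 := by
    unfold EX
    rw [← hDv]
    have h1 : Dv ^ 2 / (etaG (γ * sg * L) s₂ (L * sg * c) / 2) ≤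
        (D₀ + 4) ^ 2 / (γ * c / 720 * sg ^ 2 / 2) := by gcongr
    have h2 : (D₀ + 4) ^ 2 / (γ * c / 720 * sg ^ 2 / 2) =
        (1440 * (D₀ + 4) ^ 2 / (γ * c)) / sg ^ 2 := by
      field_simp
      ring
    have h3 : 3 * (γ * sg * L) * (2 * L * sg * C * J) + 1 ≤ 2 := by nlinarith
    have h4 : (2 : ℝ) ≤ 2 / sg ^ 2 := by
      rw [le_div_iff₀ (by positivity)]
      have : sg ^ 2 ≤ 1 := pow_le_one₀ hsg0.le hsg1
      linarith
    have h5 : c6 γ c D₀ / sg ^ 2 = (1440 * (D₀ + 4) ^ 2 / (γ * c)) / sg ^ 2 + 2 / sg ^ 2 := by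
      unfold c6
      rw [add_div]
    rw [h5]
    linarith
  have hEX0 : 0 ≤ EX (γ * sg * L) (γ * l) (2 * L * sg * C * J) s₂ (L * sg * c) D₀ := by
    unfold EX
    rw [← hDv]
    have : 0 < etaG (γ * sg * L) s₂ (L * sg * c) := lt_of_lt_of_le (by positivity) heta
    positivity
  have hτ : Real.exp (-(L ^ 2) / 8) ≤ sg ^ 45 := by
    rw [← hexp, ← Real.exp_nat_mul]
    apply Real.exp_le_exp.2
    push_cast
    nlinarith
  have heps : epsL (γ * sg * L) (γ * l) (2 * L * sg * C * J) s₂ (L * sg * c) D₀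
      (Real.exp (-(L ^ 2) / 8)) ≤ cM γ c D₀ * sg ^ 3 := by
    unfold epsL
    calc Real.exp (-(L ^ 2) / 8) *
          EX (γ * sg * L) (γ * l) (2 * L * sg * C * J) s₂ (L * sg * c) D₀ ^ 6 /
          (cG (γ * sg * L) (γ * l) (2 * L * sg * C * J) s₂ (L * sg * c) D₀ / 8) ^ 3
        ≤ sg ^ 45 * (c6 γ c D₀ / sg ^ 2) ^ 6 / (c3 γ c D₀ * sg ^ 10 / 8) ^ 3 := by gcongr
      _ = cM γ c D₀ * sg ^ 3 := by
        unfold cM
        field_simp
        ring
  refine ⟨by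
      rw [hl]
      have := (ps2 10 (by norm_num)).trans d7
      linarith, hn, by positivity, by positivity, by positivity, hκ0, hs20, hs21,
    by positivity, by positivity, hD, (Real.exp_pos _).le, ?_, ?_, e2, ?_, e2'', a64, ?_, ?_, ?_,
    ?_, ?_, ?_, ?_⟩
  · rw [hκ, Real.sq_sqrt (by positivity)]
  · rw [hval, hl]
    have h1 : 4 * ((L * sg) ^ 2 * (C / (sg ^ 2 * L ^ 10 / 2))) = 8 * C / L ^ 8 := by
      field_simp
      ring
    rw [h1]
    have h2 : 8 * C ≤ 16 * C * J := by nlinarith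
    exact div_le_div_of_nonneg_right h2 (by positivity)
  · have h1 : 4 * (γ * sg * L) / (γ * l) = 8 / (sg * L ^ 9) := by
      rw [hl]
      field_simp
      ring
    rw [h1, le_div_iff₀ (by positivity)]
    have h2 : sg ^ 2 * L ^ 11 ≤ 2 / C := (ps2 11 le_rfl).trans d1
    rw [le_div_iff₀ hC] at h2
    calc 2 * L * sg * C * J * (sg * L ^ 9) ≤ 4 * C * sg * L ^ 2 * (sg * L ^ 9) := by gcongr
      _ = 4 * (sg ^ 2 * L ^ 11 * C) := by ring
      _ ≤ 4 * 2 := by gcongr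
      _ = 8 := by norm_num
  · have : 16 * (n : ℝ) * κ = 16 * (n * κ) := by ring
    rw [this]
    linarith
  · -- e5
    have h1 : L ^ 3 * κ ≤ c / (288000 * C) := by
      refine le_of_sq (by positivity) (hκL3.trans ?_)
      have h3 : (c / (288000 * C)) ^ 2 = 1 / (288000 * C / c) ^ 2 := by
        field_simp
      rw [h3, div_le_div_iff₀ hL0 (by positivity)]
      linarith
    rw [le_div_iff₀ (by positivity)] at h1
    calc 50 * (2 * L * sg * C * J) * κ ≤ 50 * (4 * C * sg * L ^ 2) * κ := by gcongr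
      _ = sg / (1440 * L) * (L ^ 3 * κ * (288000 * C)) := by
        field_simp
        ring
      _ ≤ sg / (1440 * L) * c := by gcongr
      _ = 1 / (2 * L ^ 2) * (L * sg * c) / 720 := by
        field_simp
        ring
      _ ≤ s₂ * (L * sg * c) / 720 := by gcongr
  · -- e6
    rw [div_le_iff₀ hc] at k4
    have h2 : 34560 * C ^ 2 ≤ L ^ 7 * c := k4.trans (by
      have := pl 7 (by norm_num)
      gcongr)
    calc 6 * (2 * L * sg * C * J) * ((L * sg) ^ 2 * (C / l))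
        ≤ 6 * (4 * C * sg * L ^ 2) * ((L * sg) ^ 2 * (C / l)) := by gcongr
      _ = (34560 * C ^ 2) * (sg / (720 * L ^ 6)) := by
        rw [hl]
        field_simp
        ring
      _ ≤ (L ^ 7 * c) * (sg / (720 * L ^ 6)) := by gcongr
      _ = L * sg * c / 720 := by field_simp
  · -- e7
    rw [div_le_iff₀ (by positivity)] at k5
    calc L * sg * c ≤ L * sg * (L * (2 * C)) := by gcongr
      _ ≤ L * sg * (J * (2 * C)) := by gcongr
      _ = _ := by ring
  · -- e8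
    have h1 : γ * sg * L / (cG (γ * sg * L) (γ * l) (2 * L * sg * C * J) s₂
        (L * sg * c) D₀ / 8) ≤ γ / (c3 γ c D₀ * sg ^ 10 / 8) := by
      have : γ * sg * L ≤ γ := by
        calc γ * sg * L = γ * (sg * L) := by ring
          _ ≤ γ * 1 := by gcongr; exact p1.trans d7
          _ = γ := mul_one _
      gcongr
    have h2 : ((4 * n * κ) ^ n) ^ 2 ≤ sg ^ 30 := by
      have g1 : (4 * n * κ) ^ 2 ≤ Real.exp (-3) := by
        have g2 : 4 * n * κ ≤ 44 * (L * κ) := by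
          have : 4 * (n : ℝ) * κ = 4 * (n * κ) := by ring
          rw [this]
          linarith
        calc (4 * n * κ) ^ 2 ≤ (44 * (L * κ)) ^ 2 := by gcongr
          _ = 1936 * (L * κ) ^ 2 := by ring
          _ ≤ 1936 * (32 * C / L ^ 5) := by gcongr
          _ = 61952 * C / L ^ 5 := by ring
          _ ≤ Real.exp (-3) := by
            rw [div_le_iff₀ (by positivity), Real.exp_neg, inv_mul_eq_div,
              le_div_iff₀ (Real.exp_pos _)]
            exact k6.trans (pl 5 (by norm_num))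
      calc ((4 * n * κ) ^ n) ^ 2 = ((4 * n * κ) ^ 2) ^ n := by
            rw [← pow_mul, ← pow_mul, mul_comm n 2]
        _ ≤ Real.exp (-3) ^ n := by gcongr
        _ = Real.exp (-3 * n) := by rw [← Real.exp_nat_mul]; congr 1; ring
        _ ≤ Real.exp (30 * (-L)) := Real.exp_le_exp.2 (by linarith)
        _ = sg ^ 30 := by
          rw [← hexp, ← Real.exp_nat_mul]
          congr 1
    have h3 : sg ^ 2 ≤ 2 * L * sg * C * J * κ := by
      refine le_of_sq (by positivity) ?_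
      have g1 : (sg ^ 2) ^ 2 ≤ (2 * C * sg * L ^ 2) ^ 2 * (16 * C / L ^ 7) := by
        have g2 : sg ^ 2 * L ^ 3 ≤ 64 * C ^ 3 := (ps2 3 (by norm_num)).trans d3
        have g3 : (2 * C * sg * L ^ 2) ^ 2 * (16 * C / L ^ 7) =
            sg ^ 2 * (64 * C ^ 3) / L ^ 3 := by
          field_simp
          ring
        rw [g3, le_div_iff₀ (by positivity)]
        calc (sg ^ 2) ^ 2 * L ^ 3 = sg ^ 2 * (sg ^ 2 * L ^ 3) := by ring
          _ ≤ sg ^ 2 * (64 * C ^ 3) := by gcongr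
      calc (sg ^ 2) ^ 2 ≤ (2 * C * sg * L ^ 2) ^ 2 * (16 * C / L ^ 7) := g1
        _ ≤ (2 * L * sg * C * J) ^ 2 * κ ^ 2 := by gcongr
        _ = _ := by ring
    have h4 : sg ^ 18 ≤ c3 γ c D₀ / (16 * γ) := by
      refine le_trans ?_ (p0.trans d4)
      calc sg ^ 18 = sg ^ 17 * sg := by ring
        _ ≤ 1 * sg := by
          gcongr
          exact pow_le_one₀ hsg0.le hsg1
        _ = sg := one_mul _
    rw [le_div_iff₀ (by positivity)] at h4
    calc _ ≤ γ / (c3 γ c D₀ * sg ^ 10 / 8) * (2 * sg ^ 30) := by gcongr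
      _ = sg ^ 18 * (16 * γ) / c3 γ c D₀ * sg ^ 2 := by
        field_simp
        ring
      _ ≤ c3 γ c D₀ / c3 γ c D₀ * sg ^ 2 := by gcongr
      _ = sg ^ 2 := by rw [div_self hc3.ne', one_mul]
      _ ≤ _ := h3
  · -- e9
    have h1 : sg ≤ γ * c / (72000 * cM γ c D₀) := p0.trans d5
    rw [le_div_iff₀ (by positivity)] at h1
    calc 100 * epsL (γ * sg * L) (γ * l) (2 * L * sg * C * J) s₂ (L * sg * c) D₀
          (Real.exp (-(L ^ 2) / 8))
        ≤ 100 * (cM γ c D₀ * sg ^ 3) := by gcongr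
      _ = (sg * (72000 * cM γ c D₀)) * (sg ^ 2 / 720) := by ring
      _ ≤ (γ * c) * (sg ^ 2 / 720) := by gcongr
      _ = γ * c / 720 * sg ^ 2 := by ring
      _ ≤ _ := heta
  · -- e10
    have h1 : sg ≤ γ * C / (4 * cM γ c D₀) := p0.trans d6
    rw [le_div_iff₀ (by positivity)] at h1
    calc 8 * epsL (γ * sg * L) (γ * l) (2 * L * sg * C * J) s₂ (L * sg * c) D₀
          (Real.exp (-(L ^ 2) / 8))
        ≤ 8 * (cM γ c D₀ * sg ^ 3) := by gcongr
      _ = (sg * (4 * cM γ c D₀)) * (2 * sg ^ 2) := by ring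
      _ ≤ (γ * C) * (2 * sg ^ 2) := by gcongr
      _ = γ * sg * 1 * (2 * C * sg * 1) := by ring
      _ ≤ γ * sg * L * (2 * C * sg * L ^ 2) := by
        have : (1 : ℝ) ≤ L ^ 2 := one_le_pow₀ hL1
        gcongr
      _ ≤ γ * sg * L * (2 * L * sg * C * J) := by gcongr

/-- small `sg` -/
theorem ev (K δ : ℝ) (hδ : 0 < δ) : ∃ sg₀ : ℝ, 0 < sg₀ ∧ sg₀ < 1 ∧ ∀ sg : ℝ, 0 < sg →
    sg ≤ sg₀ → K ≤ Real.log (1 / sg) ∧ sg * Real.log (1 / sg) ^ 11 ≤ δ := by
  have h0 : Tendsto (fun sg : ℝ => Real.log (1 / sg)) (𝓝[>] 0) atTop := by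
    have := Real.tendsto_log_atTop.comp tendsto_inv_nhdsGT_zero
    simpa [Function.comp_def, one_div] using this
  have h1 : Tendsto (fun sg : ℝ => Real.log (1 / sg) ^ 11 * Real.exp (-Real.log (1 / sg)))
      (𝓝[>] 0) (𝓝 0) := (Real.tendsto_pow_mul_exp_neg_atTop_nhds_zero 11).comp h0
  have h2 := (h0.eventually (eventually_ge_atTop K)).and (h1.eventually (ge_mem_nhds hδ))
  obtain ⟨u, hu, hu2⟩ := mem_nhdsGT_iff_exists_Ioc_subset.1 h2
  refine ⟨min u (1 / 2), lt_min hu (by norm_num), lt_of_le_of_lt (min_le_right _ _) (by norm_num),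
    fun sg hsg hle => ?_⟩
  obtain ⟨g1, g2⟩ := hu2 ⟨hsg, hle.trans (min_le_left _ _)⟩
  refine ⟨g1, ?_⟩
  have e : Real.exp (-Real.log (1 / sg)) = sg := by
    rw [one_div, Real.log_inv, neg_neg, Real.exp_log hsg]
  rw [e] at g2
  linarith [mul_comm sg (Real.log (1 / sg) ^ 11)]

theorem main : S_ASYG := by
  intro γ C c D₀ hγ hC hc hD
  have hc3 : 0 < c3 γ c D₀ := by unfold c3; positivity
  have hc6 : 0 < c6 γ c D₀ := by unfold c6; positivity
  have hcM : 0 < cM γ c D₀ := by unfold cM; positivity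
  have t1 : 0 < 131072 * C := by positivity
  have t2 : 0 < 991232 * C := by positivity
  have t3 : 0 < 32 * C * (288000 * C / c) ^ 2 := by positivity
  have t4 : 0 < 34560 * C ^ 2 / c := by positivity
  have t5 : 0 < c / (2 * C) := by positivity
  have t6 : 0 < 61952 * C * Real.exp 3 := by positivity
  obtain ⟨K, hK⟩ : ∃ K, K = 14400 + 131072 * C + 991232 * C + 32 * C * (288000 * C / c) ^ 2 +
    34560 * C ^ 2 / c + c / (2 * C) + 61952 * C * Real.exp 3 := ⟨_, rfl⟩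
  obtain ⟨δ, hδ0, m1, m2, m3, m4, m5, m6, m7, m8⟩ : ∃ δ : ℝ, 0 < δ ∧ δ ≤ 2 / C ∧
      δ ≤ 1 / (32 * γ * C) ∧ δ ≤ 64 * C ^ 3 ∧ δ ≤ c3 γ c D₀ / (16 * γ) ∧
      δ ≤ γ * c / (72000 * cM γ c D₀) ∧ δ ≤ γ * C / (4 * cM γ c D₀) ∧ δ ≤ 1 ∧ δ ≤ 1 / γ := by
    have hmin : ∀ (s : Finset ℝ), (∀ x ∈ s, 0 < x) → ∃ δ : ℝ, 0 < δ ∧ ∀ x ∈ s, δ ≤ x := by
      intro s
      induction s using Finset.induction_on with
      | empty => intro _; exact ⟨1, one_pos, by simp⟩
      | insert a s _ ih =>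
        intro h
        obtain ⟨δ, h1, h2⟩ := ih fun x hx => h x (Finset.mem_insert_of_mem hx)
        refine ⟨min δ a, lt_min h1 (h a (Finset.mem_insert_self _ _)), ?_⟩
        intro x hx
        rcases Finset.mem_insert.1 hx with rfl | hx
        · exact min_le_right _ _
        · exact (min_le_left _ _).trans (h2 x hx)
    obtain ⟨δ, h1, h2⟩ := hmin {2 / C, 1 / (32 * γ * C), 64 * C ^ 3, c3 γ c D₀ / (16 * γ),
      γ * c / (72000 * cM γ c D₀), γ * C / (4 * cM γ c D₀), 1, 1 / γ} (by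
        intro x hx
        simp only [Finset.mem_insert, Finset.mem_singleton] at hx
        rcases hx with rfl | rfl | rfl | rfl | rfl | rfl | rfl | rfl <;> positivity)
    exact ⟨δ, h1, h2 _ (by simp), h2 _ (by simp), h2 _ (by simp), h2 _ (by simp),
      h2 _ (by simp), h2 _ (by simp), h2 _ (by simp), h2 _ (by simp)⟩
  obtain ⟨sg₀, h0, h1, h2⟩ := ev K δ hδ0
  refine ⟨sg₀, h0, h1, fun sg hsg hle => ?_⟩
  obtain ⟨g1, g2⟩ := h2 sg hsg hle
  set L := Real.log (1 / sg) with hL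
  have hL144 : 14400 ≤ L := by linarith
  have hL0 : 0 < L := by linarith
  have hJ : Real.log (1 / (sg ^ 2 * L ^ 10 / 2)) = 2 * L - 10 * Real.log L + Real.log 2 := by
    rw [one_div, Real.log_inv, Real.log_div (by positivity) (by norm_num),
      Real.log_mul (by positivity) (by positivity), Real.log_pow, Real.log_pow, hL, one_div,
      Real.log_inv]
    push_cast
    ring
  have hlog : 10 * Real.log L ≤ L := by
    have s1 : Real.log L = 2 * Real.log (Real.sqrt L) := by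
      rw [Real.log_sqrt hL0.le]
      ring
    have s2 : Real.log (Real.sqrt L) ≤ Real.sqrt L - 1 :=
      Real.log_le_sub_one_of_pos (Real.sqrt_pos.2 hL0)
    have s3 : 120 ≤ Real.sqrt L := by
      rw [show (120 : ℝ) = Real.sqrt (120 ^ 2) by rw [Real.sqrt_sq (by norm_num)]]
      exact Real.sqrt_le_sqrt (by norm_num; linarith)
    have s4 : Real.sqrt L * Real.sqrt L = L := Real.mul_self_sqrt hL0.le
    nlinarith
  have hlog2 : 0 ≤ Real.log 2 := Real.log_nonneg (by norm_num)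
  have hlog3 : Real.log 2 ≤ 10 * Real.log L := by
    have : Real.log 2 ≤ Real.log L := Real.log_le_log (by norm_num) (by linarith)
    linarith
  have hexp : Real.exp (-L) = sg := by
    rw [hL, one_div, Real.log_inv, neg_neg, Real.exp_log hsg]
  have hmain : ∀ s₂ : ℝ, 1 / (2 * L ^ 2) ≤ s₂ → s₂ ≤ 1 / L ^ 2 → _ := fun s₂ ha hb =>
    core (n := ⌈10 * L⌉₊) (s₂ := s₂) hγ hC hc hD (by linarith : 360 ≤ L)
      (by rw [hJ]; linarith : L ≤ Real.log (1 / (sg ^ 2 * L ^ 10 / 2))) (by rw [hJ]; linarith) hsg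
      (hle.trans h1.le) hexp rfl (Nat.le_ceil _) (by
        have := (Nat.ceil_lt_add_one (by positivity : 0 ≤ 10 * L)).le
        linarith) rfl ha hb (by linarith) (by linarith) (by linarith) (by linarith) (by linarith)
      (by linarith) (g2.trans m1) (g2.trans m2) (g2.trans m3) (g2.trans m4) (g2.trans m5)
      (g2.trans m6) (g2.trans m7) (g2.trans m8)
  refine ⟨by linarith, ?_, fun s₂ ha hb => ⟨⌈10 * L⌉₊, (hmain s₂ ha hb).2⟩⟩
  refine (hmain (1 / L ^ 2) ?_ le_rfl).1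
  apply one_div_le_one_div_of_le (by positivity)
  nlinarith [sq_nonneg L]

end Pool.Agent.N887.KG

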